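import Pool.Agent.helper9.HX.Spec

/-!
# Project hx (MP_d9e35a_co), row DOMA
-/

set_option autoImplicit false

open scoped Classical

namespace Pool.Agent.helper9.HX

open Finset
open Pool.Agent.helper65.HC (V IsEig IsTop lam)
open Pool.Agent.helper9.HQ (Fam Dn E N Le hi c)
open Pool.Agent.helper9

noncomputable section

theorem DOMA (hDOM : DOM_stmt) : DOMA_stmt := by
  intro d U f _ hf
  obtain ⟨h1, h2⟩ := hDOM d (U.filter fun x => x.card = 2) f (fun x hx => (mem_filter.1 hx).2) hf
  have hpd : ∀ i, pd i U f = ∑ x ∈ (U.filter fun x => x.card = 2).filter (fun x => i ∈ x), f x := by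
    intro i
    unfold pd
    rw [filter_filter]
  have hpd0 : ∀ i, 0 ≤ pd i U f := fun i => sum_nonneg fun x _ => hf x
  have h1' : ∑ i, pd i U f = 2 * s2 U f := by
    exact (sum_congr rfl fun i _ => hpd i).trans h1
  have h2' : ∑ i, pd i U f ^ 2 ≤ s2 U f ^ 2 + u2 U f := by
    refine le_trans (le_of_eq ?_) h2
    exact sum_congr rfl fun i _ => by rw [hpd i]
  constructor
  · have hcard : ∑ i ∈ univ.filter (fun i : Fin d => {i} ∈ U), (1 : ℝ) = nu U := by
      rw [sum_const, nsmul_eq_mul, mul_one]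
      unfold nu
      have : (U.filter fun x => x.card = 1) = (univ.filter (fun i : Fin d => {i} ∈ U)).image (fun i => {i}) := by
        ext x
        rw [mem_filter, mem_image, card_eq_one]
        constructor
        · rintro ⟨hx, i, rfl⟩
          exact ⟨i, mem_filter.2 ⟨mem_univ _, hx⟩, rfl⟩
        · rintro ⟨i, hi, rfl⟩
          exact ⟨(mem_filter.1 hi).2, i, rfl⟩
      rw [this, card_image_of_injective _ (fun a b h => singleton_injective h)]
    have e1 : ∑ i ∈ univ.filter (fun i : Fin d => {i} ∈ U), (1 + pd i U f) ^ 2 =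
        ∑ i ∈ univ.filter (fun i : Fin d => {i} ∈ U), (1 : ℝ) +
        (2 * ∑ i ∈ univ.filter (fun i : Fin d => {i} ∈ U), pd i U f +
        ∑ i ∈ univ.filter (fun i : Fin d => {i} ∈ U), pd i U f ^ 2) := by
      rw [mul_sum, ← sum_add_distrib, ← sum_add_distrib]
      exact sum_congr rfl fun i _ => by ring
    have e2 : ∑ i ∈ univ.filter (fun i : Fin d => {i} ∈ U), pd i U f ≤ 2 * s2 U f := by
      rw [← h1']
      exact sum_le_sum_of_subset_of_nonneg (filter_subset _ _) fun i _ _ => hpd0 i
    have e3 : ∑ i ∈ univ.filter (fun i : Fin d => {i} ∈ U), pd i U f ^ 2 ≤ s2 U f ^ 2 + u2 U f := by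
      refine le_trans ?_ h2'
      exact sum_le_sum_of_subset_of_nonneg (filter_subset _ _) fun i _ _ => sq_nonneg _
    rw [e1, hcard]
    linarith
  · unfold s2 ee u2
    exact sq_sum_le_card_mul_sum_sq

end

end Pool.Agent.helper9.HX
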